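import Mathlib

/-!
# MP_b44554_al, Q1: the local-global property depends on the presentation

There are two equivalent strong Maltsev conditions `Σ₁`, `Σ₂` (both satisfied by an algebra with
two elements) such that `Σ₁` has the local-global property and `Σ₂` does not:

* `Σ₁ = {c(x) ≈ c(y)}`,
* `Σ₂ = {f(p(x), y) ≈ g(x), f(x, p(y)) ≈ h(y)}`.
-/

universe u

namespace Pool.Agent.Results.MP_b44554_al.PresentationDependence

/-- Terms built from `m` operation symbols, the `j`-th of arity `ar j`, and `n` variables. -/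
inductive Term (m : ℕ) (ar : Fin m → ℕ) (n : ℕ) : Type
  | var : Fin n → Term m ar n
  | app : (j : Fin m) → (Fin (ar j) → Term m ar n) → Term m ar n

/-- The value of a term, for an interpretation `I` of the operation symbols by operations on `A`
and an assignment `x` of values to the variables. -/
def Term.eval {m : ℕ} {ar : Fin m → ℕ} {n : ℕ} {A : Type u}
    (I : (j : Fin m) → (Fin (ar j) → A) → A) (x : Fin n → A) : Term m ar n → A
  | .var i => x i
  | .app j t => I j (fun i => (t i).eval I x)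

/-- A strong Maltsev condition: finitely many operation symbols, finitely many variables, and a
finite list of identities between terms. -/
structure Condition where
  /-- the number of operation symbols -/
  m : ℕ
  /-- the arities -/
  ar : Fin m → ℕ
  /-- the number of variables -/
  n : ℕ
  /-- the identities -/
  eqs : List (Term m ar n × Term m ar n)

/-- An algebra: a non-empty set (finite or infinite) with a family of finitary basic operations. -/
structure Algebra' where
  /-- the universe of the algebra -/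
  A : Type u
  nonempty : Nonempty A
  /-- the index set of the basic operations -/
  ι : Type u
  /-- the arities of the basic operations -/
  arity : ι → ℕ
  /-- the basic operations -/
  op : (i : ι) → (Fin (arity i) → A) → A

/-- `IsTermOp 𝒜 t`: the `k`-ary operation `t` is a term operation of `𝒜`, that is, it belongs to
the clone of `𝒜`. -/
inductive IsTermOp (𝒜 : Algebra'.{u}) {k : ℕ} : ((Fin k → 𝒜.A) → 𝒜.A) → Prop
  | proj (i : Fin k) : IsTermOp 𝒜 (fun x => x i)
  | comp (i : 𝒜.ι) (g : Fin (𝒜.arity i) → (Fin k → 𝒜.A) → 𝒜.A)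
      (hg : ∀ j, IsTermOp 𝒜 (g j)) : IsTermOp 𝒜 (fun x => 𝒜.op i (fun j => g j x))

/-- `𝒜` satisfies the condition `S` on the set `F` of tuples: some interpretation of the symbols
by term operations of `𝒜` makes every identity of `S` true at all tuples of `F`. -/
def SatOn (𝒜 : Algebra'.{u}) (S : Condition) (F : Set (Fin S.n → 𝒜.A)) : Prop :=
  ∃ I : (j : Fin S.m) → (Fin (S.ar j) → 𝒜.A) → 𝒜.A, (∀ j, IsTermOp 𝒜 (I j)) ∧
    ∀ e ∈ S.eqs, ∀ x ∈ F, e.1.eval I x = e.2.eval I x

/-- `𝒜` satisfies the strong Maltsev condition `S`. -/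
def Models (𝒜 : Algebra'.{u}) (S : Condition) : Prop := SatOn 𝒜 S Set.univ

/-- The `k`-local-global property: every algebra `𝒜` such that `A^n` has at least `k` elements
which satisfies `S` on every `k`-element set `F ⊆ A^n` satisfies `S` on every finite
`F ⊆ A^n`. -/
def KLGP (k : ℕ) (S : Condition) : Prop :=
  ∀ 𝒜 : Algebra'.{u}, (∃ F : Finset (Fin S.n → 𝒜.A), F.card = k) →
    (∀ F : Finset (Fin S.n → 𝒜.A), F.card = k → SatOn 𝒜 S F) →
    ∀ F : Finset (Fin S.n → 𝒜.A), SatOn 𝒜 S F

/-- The local-global property: the `k`-local-global property for some `k ≥ 1`. -/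
def LGP (S : Condition) : Prop := ∃ k : ℕ, 1 ≤ k ∧ KLGP.{u} k S

/-- Two strong Maltsev conditions are equivalent if they are satisfied by the same algebras. -/
def Equivalent (S T : Condition) : Prop := ∀ 𝒜 : Algebra'.{u}, Models 𝒜 S ↔ Models 𝒜 T

/-- The condition `c(x) ≈ c(y)`: there is a constant unary term operation. -/
abbrev S1 : Condition where
  m := 1
  ar := fun _ => 1
  n := 2
  eqs := [(.app 0 (fun _ => .var 0), .app 0 (fun _ => .var 1))]

/-- The condition `f(p(x), y) ≈ g(x)`, `f(x, p(y)) ≈ h(y)`. The symbols `f, p, g, h` have the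
numbers `0, 1, 2, 3`. -/
abbrev S2 : Condition where
  m := 4
  ar := ![2, 1, 1, 1]
  n := 2
  eqs := [
    (.app 0 ![.app 1 (fun _ => .var 0), .var 1], .app 2 (fun _ => .var 0)),
    (.app 0 ![.var 0, .app 1 (fun _ => .var 1)], .app 3 (fun _ => .var 1))]

/-- Substituting term operations into a term operation gives a term operation. -/
lemma IsTermOp.subst {𝒜 : Algebra'.{u}} {k l : ℕ} {t : (Fin k → 𝒜.A) → 𝒜.A}
    (ht : IsTermOp 𝒜 t) (g : Fin k → (Fin l → 𝒜.A) → 𝒜.A) (hg : ∀ j, IsTermOp 𝒜 (g j)) :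
    IsTermOp 𝒜 (fun x => t (fun j => g j x)) := by
  induction ht with
  | proj i => exact hg i
  | comp i s _ ih => exact IsTermOp.comp i (fun j x => s j (fun j' => g j' x)) ih

/-- A convenient description of satisfaction of `S1`. -/
lemma satOn_S1 {𝒜 : Algebra'.{u}} {F : Set (Fin 2 → 𝒜.A)} :
    SatOn 𝒜 S1 F ↔ ∃ c : (Fin 1 → 𝒜.A) → 𝒜.A, IsTermOp 𝒜 c ∧
      ∀ x ∈ F, c (fun _ => x 0) = c (fun _ => x 1) := by
  constructor
  · rintro ⟨I, hI, h⟩
    refine ⟨I (0 : Fin 1), hI (0 : Fin 1), fun x hx => ?_⟩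
    exact h _ (List.mem_singleton.2 rfl) x hx
  · rintro ⟨c, hc, h⟩
    refine ⟨fun _ => c, fun _ => hc, ?_⟩
    intro e he x hx
    have he' := List.mem_singleton.1 he
    subst he'
    exact h x hx

/-- A convenient description of satisfaction of `S2`. -/
lemma satOn_S2 {𝒜 : Algebra'.{u}} {F : Set (Fin 2 → 𝒜.A)} :
    SatOn 𝒜 S2 F ↔ ∃ (f : (Fin 2 → 𝒜.A) → 𝒜.A) (p g h : (Fin 1 → 𝒜.A) → 𝒜.A),
      IsTermOp 𝒜 f ∧ IsTermOp 𝒜 p ∧ IsTermOp 𝒜 g ∧ IsTermOp 𝒜 h ∧
      ∀ x ∈ F, f ![p (fun _ => x 0), x 1] = g (fun _ => x 0) ∧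
        f ![x 0, p (fun _ => x 1)] = h (fun _ => x 1) := by
  constructor
  · rintro ⟨I, hI, h⟩
    refine ⟨I (0 : Fin 4), I (1 : Fin 4), I (2 : Fin 4), I (3 : Fin 4), hI (0 : Fin 4),
      hI (1 : Fin 4), hI (2 : Fin 4), hI (3 : Fin 4), fun x hx => ⟨?_, ?_⟩⟩
    · have h1 := h _ (List.mem_cons_self) x hx
      exact (congrArg (I (0 : Fin 4)) (funext fun i => by fin_cases i <;> rfl)).trans h1
    · have h1 := h _ (List.mem_cons_of_mem _ List.mem_cons_self) x hx
      exact (congrArg (I (0 : Fin 4)) (funext fun i => by fin_cases i <;> rfl)).trans h1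
  · rintro ⟨f, p, g, h, hf, hp, hg, hh, H⟩
    refine ⟨fun j => match j with
      | 0 => f
      | 1 => p
      | 2 => g
      | 3 => h, ?_, ?_⟩
    · intro j
      match j with
      | 0 => exact hf
      | 1 => exact hp
      | 2 => exact hg
      | 3 => exact hh
    · intro e he x hx
      rcases List.mem_cons.1 he with he' | he'
      · subst he'
        exact (congrArg f (funext fun i => by fin_cases i <;> rfl)).trans (H x hx).1
      · have he'' := List.mem_singleton.1 he'
        subst he''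
        exact (congrArg f (funext fun i => by fin_cases i <;> rfl)).trans (H x hx).2

lemma models_S1 {𝒜 : Algebra'.{u}} : Models 𝒜 S1 ↔ ∃ c : (Fin 1 → 𝒜.A) → 𝒜.A,
    IsTermOp 𝒜 c ∧ ∀ a b : 𝒜.A, c (fun _ => a) = c (fun _ => b) := by
  unfold Models
  rw [satOn_S1]
  constructor
  · rintro ⟨c, hc, h⟩
    exact ⟨c, hc, fun a b => h ![a, b] trivial⟩
  · rintro ⟨c, hc, h⟩
    exact ⟨c, hc, fun x _ => h _ _⟩

lemma equivalent_S1_S2 : Equivalent.{u} S1 S2 := by
  intro 𝒜
  rw [models_S1]
  unfold Models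
  rw [satOn_S2]
  constructor
  · rintro ⟨c, hc, h⟩
    refine ⟨fun x => c (fun _ => x 0), c, c, c, ?_, hc, hc, hc, fun x _ => ⟨h _ _, h _ _⟩⟩
    exact hc.subst (fun _ x => x 0) (fun _ => IsTermOp.proj 0)
  · rintro ⟨f, p, g, h, hf, hp, hg, hh, H⟩
    refine ⟨g, hg, fun a b => ?_⟩
    have key : ∀ a : 𝒜.A, g (fun _ => a) = h (fun _ => b) := by
      intro a
      have h1 := (H ![a, p (fun _ => b)] trivial).1
      have h2 := (H ![p (fun _ => a), b] trivial).2
      simp only [Matrix.cons_val_zero, Matrix.cons_val_one] at h1 h2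
      rw [← h1, ← h2]
    rw [key a, key b]

lemma lgp_S1 : LGP.{u} S1 := by
  refine ⟨1, le_rfl, ?_⟩
  intro 𝒜 _ hloc F
  classical
  induction F using Finset.induction_on with
  | empty =>
    refine satOn_S1.2 ⟨fun x => x 0, IsTermOp.proj 0, ?_⟩
    intro x hx
    simp at hx
  | insert a F _ ih =>
    obtain ⟨c, hc, h⟩ := satOn_S1.1 ih
    obtain ⟨c', hc', h'⟩ := satOn_S1.1
      (hloc {![c (fun _ => a 0), c (fun _ => a 1)]} (Finset.card_singleton _))
    refine satOn_S1.2 ⟨fun x => c' (fun _ => c x), hc'.subst (fun _ => c) (fun _ => hc), ?_⟩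
    intro x hx
    rw [Finset.coe_insert, Set.mem_insert_iff] at hx
    rcases hx with hx | hx
    · subst hx
      have := h' _ (Finset.mem_coe.2 (Finset.mem_singleton_self _))
      simpa using this
    · show c' (fun _ => c (fun _ => x 0)) = c' (fun _ => c (fun _ => x 1))
      rw [h x hx]

/-- The universe `Fin (k + 1) × {0, 1}` of the algebra `Alg k`. -/
abbrev B (k : ℕ) : Type u := Fin (k + 1) × ULift.{u} Bool

/-- The relation `{((i, 0), (i, 1))}` on `B k`. -/
def E {k : ℕ} (a b : B.{u} k) : Prop := a.1 = b.1 ∧ a.2.down = false ∧ b.2.down = true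

/-- The operation `t` preserves the relation `E`. -/
def Pres {k l : ℕ} (t : (Fin l → B.{u} k) → B.{u} k) : Prop :=
  ∀ x y : Fin l → B.{u} k, (∀ j, E (x j) (y j)) → E (t x) (t y)

/-- The algebra on `B k` whose basic operations are all operations preserving `E`. -/
def Alg (k : ℕ) : Algebra'.{u} where
  A := B.{u} k
  nonempty := ⟨(0, ⟨false⟩)⟩
  ι := Σ l : ULift.{u} ℕ, {t : (Fin l.down → B.{u} k) → B.{u} k // Pres t}
  arity := fun i => i.1.down
  op := fun i => i.2.1

lemma termOp_pres {k l : ℕ} {t : (Fin l → (Alg.{u} k).A) → (Alg.{u} k).A}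
    (ht : IsTermOp (Alg.{u} k) t) : Pres t := by
  induction ht with
  | proj i => exact fun x y h => h i
  | comp i g _ ih => exact fun x y h => i.2.2 _ _ (fun j => ih j x y h)

lemma pres_termOp {k l : ℕ} {t : (Fin l → (Alg.{u} k).A) → (Alg.{u} k).A}
    (ht : Pres t) : IsTermOp (Alg.{u} k) t :=
  IsTermOp.comp (𝒜 := Alg.{u} k) ⟨⟨l⟩, ⟨t, ht⟩⟩ (fun j x => x j) (fun j => IsTermOp.proj j)

lemma not_models (k : ℕ) : ¬ Models (Alg.{u} k) S1 := by
  rw [models_S1]
  rintro ⟨c, hc, h⟩
  have h1 := termOp_pres hc (fun _ => (0, ⟨false⟩)) (fun _ => (0, ⟨true⟩)) (fun _ => ⟨rfl, rfl, rfl⟩)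
  rw [h (0, ⟨false⟩) (0, ⟨true⟩)] at h1
  have h2 := h1.2.1
  have h3 := h1.2.2
  rw [h2] at h3
  exact absurd h3 (by decide)

/-- The interpretation of `f` in `Alg k`: projection to the first argument if this lies in the
copy `i0`, and to the second argument otherwise. -/
def fop (k : ℕ) (i0 : Fin (k + 1)) (x : Fin 2 → B.{u} k) : B.{u} k :=
  if (x 0).1 = i0 then x 0 else x 1

/-- The interpretation of `p`, `g` and `h` in `Alg k`: move to the copy `i0`. -/
def pop (k : ℕ) (i0 : Fin (k + 1)) (x : Fin 1 → B.{u} k) : B.{u} k := (i0, (x 0).2)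

lemma pres_fop (k : ℕ) (i0 : Fin (k + 1)) : Pres (fop.{u} k i0) := by
  intro x y h
  have h0 := (h 0).1
  unfold fop
  by_cases hx : (x 0).1 = i0
  · rw [if_pos hx, if_pos (h0 ▸ hx)]
    exact h 0
  · rw [if_neg hx, if_neg (h0 ▸ hx)]
    exact h 1

lemma pres_pop (k : ℕ) (i0 : Fin (k + 1)) : Pres (pop.{u} k i0) :=
  fun _ _ h => ⟨rfl, (h 0).2.1, (h 0).2.2⟩

lemma local_aux (k : ℕ) (F : Finset (Fin 2 → B.{u} k)) (hF : F.card = k) :
    ∃ i0 : Fin (k + 1), ∀ x ∈ F, (x 0).1 ≠ i0 := by
  classical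
  by_contra hcon
  push Not at hcon
  have h1 : (Finset.univ : Finset (Fin (k + 1))) ⊆ F.image (fun x => (x 0).1) := by
    intro i _
    obtain ⟨x, hx, hxi⟩ := hcon i
    exact Finset.mem_image.2 ⟨x, hx, hxi⟩
  have h2 := (Finset.card_le_card h1).trans Finset.card_image_le
  rw [Finset.card_univ, Fintype.card_fin, hF] at h2
  omega

lemma local_S2 (k : ℕ) (F : Finset (Fin 2 → (Alg.{u} k).A)) (hF : F.card = k) :
    SatOn (Alg.{u} k) S2 F := by
  obtain ⟨i0, hi0⟩ := local_aux k F hF
  refine satOn_S2.2 ⟨fop k i0, pop k i0, pop k i0, pop k i0, pres_termOp (pres_fop k i0),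
    pres_termOp (pres_pop k i0), pres_termOp (pres_pop k i0), pres_termOp (pres_pop k i0), ?_⟩
  intro x hx
  constructor
  · exact if_pos rfl
  · exact if_neg (hi0 x hx)

lemma not_lgp_S2 : ¬ LGP.{u} S2 := by
  rintro ⟨k, hk, h⟩
  have hex : ∃ F : Finset (Fin 2 → B.{u} k), F.card = k := by
    have hcard : k ≤ (Finset.univ : Finset (Fin 2 → B.{u} k)).card := by
      rw [Finset.card_univ, Fintype.card_fun]
      simp only [B, Fintype.card_prod, Fintype.card_fin, Fintype.card_ulift, Fintype.card_bool]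
      nlinarith
    obtain ⟨t, _, ht⟩ := Finset.exists_subset_card_eq hcard
    exact ⟨t, ht⟩
  have h1 := h (Alg.{u} k) hex (fun F hF => local_S2 k F hF)
  have h2 := h1 (Finset.univ : Finset (Fin 2 → B.{u} k))
  have h3 : Models (Alg.{u} k) S2 := by
    obtain ⟨I, hI, hI'⟩ := h2
    exact ⟨I, hI, fun e he x _ => hI' e he x (Finset.mem_coe.2 (Finset.mem_univ (α := Fin 2 → B.{u} k) x))⟩
  exact not_models k ((equivalent_S1_S2 (Alg.{u} k)).2 h3)

/-- An algebra on the two-element set with all operations as basic operations. -/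
def Two : Algebra'.{u} where
  A := ULift.{u} Bool
  nonempty := ⟨⟨false⟩⟩
  ι := Σ l : ULift.{u} ℕ, ((Fin l.down → ULift.{u} Bool) → ULift.{u} Bool)
  arity := fun i => i.1.down
  op := fun i => i.2

/-- **Q1 of MP_b44554_al.** There are equivalent strong Maltsev conditions `S`, `T` such that `S`
has the local-global property and `T` does not. Moreover `S` and `T` are satisfied by some algebra
with more than one element, so they are not merely inconsistent. -/
theorem result : ∃ S T : Condition, Equivalent.{u} S T ∧ LGP.{u} S ∧ ¬ LGP.{u} T ∧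
    ∃ 𝒜 : Algebra'.{u}, Nontrivial 𝒜.A ∧ Models 𝒜 S ∧ Models 𝒜 T := by
  have h1 : Models Two.{u} S1 := by
    rw [models_S1]
    exact ⟨fun _ => (⟨false⟩ : ULift.{u} Bool),
      IsTermOp.comp (𝒜 := Two.{u}) ⟨⟨1⟩, fun _ => ⟨false⟩⟩ (fun j x => x j)
        (fun j => IsTermOp.proj j), fun _ _ => rfl⟩
  refine ⟨S1, S2, equivalent_S1_S2, lgp_S1, not_lgp_S2, Two, ?_, h1, (equivalent_S1_S2 _).1 h1⟩
  exact ⟨⟨(⟨false⟩ : ULift.{u} Bool), (⟨true⟩ : ULift.{u} Bool),
    fun h => absurd (congrArg ULift.down h) (by decide)⟩⟩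

end Pool.Agent.Results.MP_b44554_al.PresentationDependence
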